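import Pool.Agent.H40.LX.Sh
import Pool.Agent.H46.MIC.Ev

/-!
# Codes with few values on every level

`sel`: separated codes. `lev_le`: if every cell of a level contains few cells of the next level, then
the last code is few bits. `lev_bad`: the samples whose cells contain few cells on every level are
rare, if the last code is alive.
-/

set_option autoImplicit false

namespace Pool.FLN13

open Finset Real
open Pool.Agent.H49.Ent Pool.Agent.H32.Dense Pool.STK
open Pool.BFL (Pb)
open Pool.MIC (isLaw_ev ev_pos CH_ev_le)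

/-- **Separated codes.** -/
theorem sel {k : ℕ} (D : ℕ) (T : Finset (Fin k → ℤ)) (x₀ : Fin k → ℤ) (hx : x₀ ∈ T)
    (hT : D * 3 ^ k < T.card) : ∃ w : Fin (D + 1) → Fin k → ℤ, w 0 = x₀ ∧ (∀ i, w i ∈ T) ∧
      ∀ i l, i ≠ l → ∃ j, 2 ≤ |w i j - w l j| := by
  classical
  induction D with
  | zero =>
    refine ⟨fun _ => x₀, rfl, fun _ => hx, fun i l h => ?_⟩
    exfalso
    exact h (by omega)
  | succ D ih =>
    obtain ⟨w, h0, h1, h2⟩ := ih (lt_of_le_of_lt (Nat.mul_le_mul_right _ (Nat.le_succ D)) hT)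
    obtain ⟨Nb, hNb⟩ : ∃ Nb : Fin (D + 1) → Finset (Fin k → ℤ), Nb = fun i =>
      Fintype.piFinset fun j => Finset.Icc (w i j - 1) (w i j + 1) := ⟨_, rfl⟩
    have hc : ∀ i, (Nb i).card = 3 ^ k := by
      intro i
      rw [hNb]
      simp only [Fintype.card_piFinset, Int.card_Icc]
      have : ∀ j : Fin k, (w i j + 1 + 1 - (w i j - 1)).toNat = 3 := by
        intro j
        have : w i j + 1 + 1 - (w i j - 1) = 3 := by ring
        rw [this]
        rfl
      rw [Finset.prod_congr rfl fun j _ => this j, Finset.prod_const, Finset.card_univ,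
        Fintype.card_fin]
    have h3 : (univ.biUnion Nb).card ≤ (D + 1) * 3 ^ k := by
      refine Finset.card_biUnion_le.trans ?_
      rw [Finset.sum_congr rfl fun i _ => hc i, Finset.sum_const, Finset.card_univ,
        Fintype.card_fin, smul_eq_mul]
    obtain ⟨x, hxT, hxN⟩ : ∃ x ∈ T, x ∉ univ.biUnion Nb := by
      by_contra hcon
      push Not at hcon
      have := Finset.card_le_card (show T ⊆ univ.biUnion Nb from fun x hx => hcon x hx)
      omega
    have hfar : ∀ i, ∃ j, 2 ≤ |w i j - x j| := by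
      intro i
      by_contra hcon
      push Not at hcon
      apply hxN
      refine mem_biUnion.2 ⟨i, mem_univ _, ?_⟩
      rw [hNb]
      refine Fintype.mem_piFinset.2 fun j => ?_
      have h4 := hcon j
      have h5 := abs_lt.1 h4
      rw [Finset.mem_Icc]
      omega
    refine ⟨Fin.snoc w x, ?_, ?_, ?_⟩
    · have : (0 : Fin (D + 1 + 1)) = Fin.castSucc 0 := rfl
      rw [this, Fin.snoc_castSucc, h0]
    · intro i
      refine Fin.lastCases ?_ (fun i => ?_) i
      · rw [Fin.snoc_last]; exact hxT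
      · rw [Fin.snoc_castSucc]; exact h1 i
    · intro i
      refine Fin.lastCases ?_ (fun i => ?_) i
      · intro l
        refine Fin.lastCases ?_ (fun l => ?_) l
        · intro h; exact absurd rfl h
        · intro _
          rw [Fin.snoc_last, Fin.snoc_castSucc]
          obtain ⟨j, hj⟩ := hfar l
          exact ⟨j, by rw [abs_sub_comm]; exact hj⟩
      · intro l
        refine Fin.lastCases ?_ (fun l => ?_) l
        · intro _
          rw [Fin.snoc_last, Fin.snoc_castSucc]
          exact hfar i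
        · intro h
          rw [Fin.snoc_castSucc, Fin.snoc_castSucc]
          exact h2 i l fun h' => h (by rw [h'])

/-- The code of a level. -/
def cd {Ω : Type} {k : ℕ} (W : Ω → Fin k → ℤ) (n β i : ℕ) (ω : Ω) : Fin k → ℤ :=
  fun j => W ω j / 2 ^ ((n - i) * β)

open Classical in
/-- The cells of the next level. -/
noncomputable def nx {Ω 𝒴 : Type} [Fintype Ω] {k : ℕ} (p : Ω → ℝ) (W : Ω → Fin k → ℤ) (Y : Ω → 𝒴)
    (n β i : ℕ) (v : (Fin k → ℤ) × 𝒴) : Finset (Fin k → ℤ) :=
  ((univ : Finset Ω).filter fun ω => 0 < p ω ∧ cd W n β i ω = v.1 ∧ Y ω = v.2).image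
    (cd W n β (i + 1))

theorem mem_nx {Ω 𝒴 : Type} [Fintype Ω] {k : ℕ} {p : Ω → ℝ} {W : Ω → Fin k → ℤ} {Y : Ω → 𝒴}
    {n β i : ℕ} {v : (Fin k → ℤ) × 𝒴} {x : Fin k → ℤ} : x ∈ nx p W Y n β i v ↔
      ∃ ω, (0 < p ω ∧ cd W n β i ω = v.1 ∧ Y ω = v.2) ∧ cd W n β (i + 1) ω = x := by
  classical
  unfold nx
  simp only [Finset.mem_image, Finset.mem_filter, Finset.mem_univ, true_and]

/-- **Few cells on every level.** -/
theorem lev_le {Ω 𝒴 : Type} [Fintype Ω] {k : ℕ} {p : Ω → ℝ} (hp : IsLaw p) (W : Ω → Fin k → ℤ)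
    (Y : Ω → 𝒴) (n β N₀ B₀ : ℕ)
    (h0 : ∀ ω, 0 < p ω → ∀ j, |cd W n β 0 ω j| ≤ (B₀ : ℤ))
    (hno : ∀ ω, 0 < p ω → ∀ i < n, (nx p W Y n β i (cd W n β i ω, Y ω)).card ≤ N₀) :
    CH p W Y ≤ k * Real.log (2 * B₀ + 1) + n * Real.log N₀ := by
  classical
  have hq := hp.nonneg
  have key : ∀ i ≤ n, CH p (cd W n β i) Y ≤ k * Real.log (2 * B₀ + 1) + i * Real.log N₀ := by
    intro i
    induction i with
    | zero =>
      intro _
      have h1 := Pool.LX.CH_le_log hp (cd W n β 0) Y (fun _ => Fintype.piFinset fun _ : Fin k =>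
        Finset.Icc (-(B₀ : ℤ)) B₀) (M := (2 * B₀ + 1) ^ k) (fun ω hω => by
          refine Fintype.mem_piFinset.2 fun j => ?_
          have := abs_le.1 (h0 ω hω j)
          exact Finset.mem_Icc.2 this) (fun ω _ => by
          rw [Fintype.card_piFinset, Finset.prod_const, Finset.card_univ, Fintype.card_fin,
            Int.card_Icc]
          have : ((B₀ : ℤ) + 1 - -(B₀ : ℤ)).toNat = 2 * B₀ + 1 := by omega
          rw [this]
          push_cast
          exact le_rfl)
      rw [Real.log_pow] at h1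
      push_cast
      linarith
    | succ i ih =>
      intro hi
      have h1 := ih (by omega)
      have h2 := CH_le_add hq (cd W n β (i + 1)) (cd W n β i) Y
      have h3 := Pool.LX.CH_le_log hp (cd W n β (i + 1)) (fun ω => (cd W n β i ω, Y ω))
        (nx p W Y n β i) (M := N₀) (fun ω hω => by
          unfold nx
          exact mem_image_of_mem _ (mem_filter.2 ⟨mem_univ _, hω, rfl, rfl⟩))
        (fun ω hω => by exact_mod_cast hno ω hω i (by omega))
      push_cast
      linarith
  have h1 := key n le_rfl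
  have e : cd W n β n = W := by
    funext ω j
    unfold cd
    rw [Nat.sub_self, Nat.zero_mul, pow_zero, Int.ediv_one]
  rw [e] at h1
  exact h1

/-- **The samples whose cells contain few cells on every level are rare.** -/
theorem lev_bad {Ω 𝒴 : Type} [Fintype Ω] {k : ℕ} {p : Ω → ℝ} (hp : IsLaw p) (W : Ω → Fin k → ℤ)
    (Y : Ω → 𝒴) (n β N₀ B₀ : ℕ) {c L : ℝ} (hc : 0 < c)
    (h0 : ∀ ω, 0 < p ω → ∀ j, |cd W n β 0 ω j| ≤ (B₀ : ℤ))
    (hal : ∀ R : Ω → Prop, c ≤ Pb p R → L ≤ CH (cond p R True) W Y)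
    (hL : k * Real.log (2 * B₀ + 1) + n * Real.log N₀ < L) :
    Pb p (fun ω => ∀ i < n, (nx p W Y n β i (cd W n β i ω, Y ω)).card ≤ N₀) < c := by
  classical
  by_contra hcon
  push Not at hcon
  obtain ⟨R, hR⟩ : ∃ R : Ω → Prop, R = fun ω => ∀ i < n,
    (nx p W Y n β i (cd W n β i ω, Y ω)).card ≤ N₀ := ⟨_, rfl⟩
  rw [← hR] at hcon
  have hRp : 0 < Pb p R := lt_of_lt_of_le hc hcon
  have hq := isLaw_ev hp R hRp
  have h1 := lev_le hq W Y n β N₀ B₀ (fun ω hω => h0 ω (ev_pos hp.nonneg R hω).1)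
    (fun ω hω i hi => by
      have h2 := (ev_pos hp.nonneg R hω).2
      rw [hR] at h2
      refine le_trans (Finset.card_le_card ?_) (h2 i hi)
      unfold nx
      refine Finset.image_subset_image fun ω' hω' => ?_
      obtain ⟨-, h3, h4⟩ := mem_filter.1 hω'
      exact mem_filter.2 ⟨mem_univ _, (ev_pos hp.nonneg R h3).1, h4⟩)
  have h2 := hal R hcon
  linarith

end Pool.FLN13
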