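import Pool.Agent.H13.FLN.Det
import Pool.Agent.H68.RM.Dv

/-!
# A function of two variables which is known along many curves

`flat_cur`: a polynomial `g (τ, u)` of degree at most `D` which takes on `D + 1` curves values which
depend only on `τ` does not depend on `u` near the curves, if the mutual distances of the curves are
at most `R` and (somewhere) at least `ρ`.
-/

set_option autoImplicit false

namespace Pool.FLN13

open Finset MvPolynomial

/-- The point. -/
def pt (τ u : ℝ) : Fin 2 → ℝ := ![τ, u]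

/-- The curves. -/
noncomputable def cv2 (p q : Polynomial ℝ) : Fin 2 → Polynomial ℝ := ![p, q]

theorem cv2_deg {p q : Polynomial ℝ} {E : ℕ} (hp : p.natDegree ≤ E) (hq : q.natDegree ≤ E)
    (i : Fin 2) : (cv2 p q i).natDegree ≤ E := by
  fin_cases i
  · exact hp
  · exact hq

theorem ev_cv2 (g : MvPolynomial (Fin 2) ℝ) (p q : Polynomial ℝ) (t : ℝ) :
    (aeval (cv2 p q) g).eval t = eval (pt (p.eval t) (q.eval t)) g := by
  rw [ev_comp]
  congr 2
  funext i
  fin_cases i <;> rfl

/-- The derivative in the second variable. -/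
theorem der_cv2 (g : MvPolynomial (Fin 2) ℝ) (τ a b t : ℝ) :
    (Polynomial.derivative (aeval (cv2 (Polynomial.C τ) (Polynomial.C a + Polynomial.C b *
      Polynomial.X)) g)).eval t = b * eval (pt τ (a + b * t)) (pderiv 1 g) := by
  rw [Pool.RM.der_aeval, Fin.sum_univ_two, Polynomial.eval_add, Polynomial.eval_mul,
    Polynomial.eval_mul, ev_cv2, ev_cv2]
  have e0 : cv2 (Polynomial.C τ) (Polynomial.C a + Polynomial.C b * Polynomial.X) 0 =
    Polynomial.C τ := rfl
  have e1 : cv2 (Polynomial.C τ) (Polynomial.C a + Polynomial.C b * Polynomial.X) 1 =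
    Polynomial.C a + Polynomial.C b * Polynomial.X := rfl
  rw [e0, e1, Polynomial.derivative_C, Polynomial.eval_zero, mul_zero, zero_add,
    Polynomial.derivative_add, Polynomial.derivative_C, zero_add, Polynomial.derivative_C_mul,
    Polynomial.derivative_X, mul_one, Polynomial.eval_C]
  simp only [Polynomial.eval_C, Polynomial.eval_add, Polynomial.eval_mul, Polynomial.eval_X]
  ring

theorem flat_cur (D K : ℕ) : ∃ C : ℝ, 1 ≤ C ∧ ∀ (g : MvPolynomial (Fin 2) ℝ),
    g.totalDegree ≤ D → ∀ (f : ℝ → ℝ) (U : Fin (D + 1) → Polynomial ℝ) (R ρ ε : ℝ), 0 < ρ →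
    ρ ≤ R → 0 ≤ ε → (∀ i, (U i).natDegree ≤ K) →
    (∀ i k, ∀ τ : ℝ, |τ| ≤ 1 → |(U i).eval τ - (U k).eval τ| ≤ R) →
    (∀ i k, i ≠ k → ∃ τ : ℝ, |τ| ≤ 1 ∧ ρ ≤ |(U i).eval τ - (U k).eval τ|) →
    (∀ i, ∀ τ : ℝ, |τ| ≤ 1 → |eval (pt τ ((U i).eval τ)) g - f τ| ≤ ε) →
    ∀ τ h : ℝ, |τ| ≤ 1 → |h| ≤ R →
      |eval (pt τ ((U 0).eval τ + h)) g - eval (pt τ ((U 0).eval τ)) g| ≤ C * ε * (R / ρ) ^ D ∧
      |eval (pt τ ((U 0).eval τ + h)) (pderiv 1 g)| ≤ C * ε * (R / ρ) ^ D / R := by
  classical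
  obtain ⟨C₂, hC₂, HM⟩ := Pool.Agent.H40.BFL.mko_thm D
  obtain ⟨N, hN⟩ : ∃ N : ℕ, N = (D + 1) * (D + 1) * K + D * (K + 1) + 1 := ⟨_, rfl⟩
  have hN0 : 0 < N := by omega
  have hN' : (0 : ℝ) < N := by exact_mod_cast hN0
  obtain ⟨A, hA⟩ : ∃ A : ℝ, A = 2 * (((K : ℝ) + 1) * (2 * N) ^ K) := ⟨_, rfl⟩
  have hA0 : 0 < A := by rw [hA]; positivity
  obtain ⟨C₁, hC₁⟩ : ∃ C₁ : ℝ, C₁ = ((D * (K + 1) : ℕ) + 1) *
    (2 * (D + 1) * (2 * A) ^ D * (2 * N) ^ (D * (K + 1))) := ⟨_, rfl⟩
  have hC₁0 : 0 ≤ C₁ := by rw [hC₁]; positivity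
  refine ⟨C₁ * C₂ + C₁ + 1, ?_, ?_⟩
  · have : 0 ≤ C₁ * C₂ := mul_nonneg hC₁0 (by linarith)
    linarith
  intro g hg f U R ρ ε hρ hρR hε hU hR hsep hval
  have hR0 : 0 < R := lt_of_lt_of_le hρ hρR
  obtain ⟨ρ₁, hρ₁⟩ : ∃ ρ₁ : ℝ, ρ₁ = ρ / A := ⟨_, rfl⟩
  have hρ₁0 : 0 < ρ₁ := by rw [hρ₁]; positivity
  -- the good points
  obtain ⟨S, hS⟩ : ∃ S : Finset ℕ, S = (range (N + 1)).filter fun a => ∀ i k, i ≠ k →
    ρ₁ < |(U i - U k).eval (gp N a)| := ⟨_, rfl⟩
  have hSN : ∀ a ∈ S, a ≤ N := by
    intro a ha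
    rw [hS, mem_filter, mem_range] at ha
    omega
  have hcard : D * (K + 1) + 1 ≤ S.card := by
    obtain ⟨T, hT⟩ : ∃ T : Fin (D + 1) × Fin (D + 1) → Finset ℕ, T = fun x =>
      (range (N + 1)).filter fun a => x.1 ≠ x.2 ∧ |(U x.1 - U x.2).eval (gp N a)| ≤ ρ₁ :=
      ⟨_, rfl⟩
    have h1 : range (N + 1) ⊆ S ∪ univ.biUnion T := by
      intro a ha
      rw [mem_union]
      by_cases h : a ∈ S
      · exact Or.inl h
      · right
        rw [hS, mem_filter] at h
        push Not at h
        obtain ⟨i, k, hik, h2⟩ := h ha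
        rw [mem_biUnion]
        refine ⟨(i, k), mem_univ _, ?_⟩
        rw [hT]
        exact mem_filter.2 ⟨ha, hik, h2⟩
    have h2 : ∀ x : Fin (D + 1) × Fin (D + 1), (T x).card ≤ K := by
      intro x
      by_cases hx : x.1 = x.2
      · have : T x = ∅ := by
          rw [hT]
          refine filter_eq_empty_iff.2 fun a _ h => h.1 hx
        rw [this, card_empty]
        exact Nat.zero_le _
      · refine grid_bad hN0 (U x.1 - U x.2) ((Polynomial.natDegree_sub_le _ _).trans
          (max_le (hU _) (hU _))) hρ ?_ (T x) ?_ ?_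
        · obtain ⟨τ, h3, h4⟩ := hsep x.1 x.2 hx
          exact ⟨τ, h3, by rw [Polynomial.eval_sub]; exact h4⟩
        · intro a ha
          rw [hT] at ha
          have := mem_range.1 (mem_filter.1 ha).1
          omega
        · intro a ha
          rw [hT] at ha
          have h5 := (mem_filter.1 ha).2.2
          rw [hρ₁, hA] at h5
          exact h5
    have h3 := card_le_card h1
    have h4 := card_union_le S (univ.biUnion T)
    have h5 := card_biUnion_le (s := univ) (t := T)
    have h6 : ∑ x : Fin (D + 1) × Fin (D + 1), (T x).card ≤ (D + 1) * (D + 1) * K := by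
      refine (sum_le_sum fun x _ => h2 x).trans ?_
      rw [sum_const, card_univ, Fintype.card_prod, Fintype.card_fin, smul_eq_mul]
    rw [card_range] at h3
    omega
  -- the values in `u`
  have key : ∀ a ∈ S, ∀ h : ℝ, |h| ≤ R →
      |eval (pt (gp N a) ((U 0).eval (gp N a) + h)) g - f (gp N a)| ≤
        (D + 1) * (ε * (2 * A) ^ D * (R / ρ) ^ D) := by
    intro a ha h hh
    have ha1 : |gp N a| ≤ 1 := gp_le hN0 (hSN a ha)
    rw [hS, mem_filter] at ha
    obtain ⟨r, hr⟩ : ∃ r : Polynomial ℝ, r = aeval (cv2 (Polynomial.C (gp N a)) Polynomial.X) g -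
      Polynomial.C (f (gp N a)) := ⟨_, rfl⟩
    have hrd : r.natDegree ≤ D := by
      rw [hr]
      refine (Polynomial.natDegree_sub_le _ _).trans (max_le ?_ ?_)
      · refine (deg_comp g _ (cv2_deg (E := 1) ?_ ?_) hg).trans ?_
        · rw [Polynomial.natDegree_C]; exact Nat.zero_le _
        · exact Polynomial.natDegree_X_le
        · omega
      · rw [Polynomial.natDegree_C]; exact Nat.zero_le _
    have hre : ∀ s, r.eval s = eval (pt (gp N a) s) g - f (gp N a) := by
      intro s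
      rw [hr, Polynomial.eval_sub, ev_cv2, Polynomial.eval_C, Polynomial.eval_X,
        Polynomial.eval_C]
    have hinj : Function.Injective fun i => (U i).eval (gp N a) := by
      intro i k hik
      by_contra hne
      have h1 := ha.2 i k hne
      have h2 : (U i).eval (gp N a) = (U k).eval (gp N a) := hik
      rw [Polynomial.eval_sub, h2, sub_self, abs_zero] at h1
      linarith
    have h1 := Pool.LBW.lagr r hrd (univ.image fun i => (U i).eval (gp N a)) (by
        rw [card_image_of_injective _ hinj, card_univ, Fintype.card_fin]) (m := ε) (B := 2 * R)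
      (L := 1 / ρ₁) (s := (U 0).eval (gp N a) + h) (by positivity) (by positivity) (by
        intro x hx y hy hxy
        obtain ⟨i, -, rfl⟩ := mem_image.1 hx
        obtain ⟨k, -, rfl⟩ := mem_image.1 hy
        have h2 := ha.2 i k fun h => hxy (by rw [h])
        rw [Polynomial.eval_sub] at h2
        rw [one_div_one_div]
        exact h2.le) (by
        intro y hy
        obtain ⟨k, -, rfl⟩ := mem_image.1 hy
        have h2 := hR 0 k _ ha1
        have e : (U 0).eval (gp N a) + h - (U k).eval (gp N a) =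
          ((U 0).eval (gp N a) - (U k).eval (gp N a)) + h := by ring
        show |(U 0).eval (gp N a) + h - (U k).eval (gp N a)| ≤ 2 * R
        rw [e]
        refine (abs_add_le _ _).trans ?_
        linarith) (by
        intro y hy
        obtain ⟨k, -, rfl⟩ := mem_image.1 hy
        rw [hre]
        exact hval k _ ha1)
    rw [hre] at h1
    refine h1.trans (le_of_eq ?_)
    have e2 : 2 * R * (1 / ρ₁) = 2 * A * (R / ρ) := by
      rw [hρ₁]
      field_simp
    rw [e2, mul_pow]
    ring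
  -- extrapolation in the time
  have fin1 : ∀ τ h : ℝ, |τ| ≤ 1 → |h| ≤ R →
      |eval (pt τ ((U 0).eval τ + h)) g - eval (pt τ ((U 0).eval τ)) g| ≤
        C₁ * ε * (R / ρ) ^ D := by
    intro τ h hτ hh
    obtain ⟨P, hP⟩ : ∃ P : Polynomial ℝ, P = aeval (cv2 Polynomial.X (U 0 + Polynomial.C h)) g -
      aeval (cv2 Polynomial.X (U 0)) g := ⟨_, rfl⟩
    have hPd : P.natDegree ≤ D * (K + 1) := by
      rw [hP]
      have a1 : (Polynomial.X : Polynomial ℝ).natDegree ≤ K + 1 :=
        Polynomial.natDegree_X_le.trans (by omega)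
      have a2 : (U 0).natDegree ≤ K + 1 := (hU 0).trans (by omega)
      have a3 : (U 0 + Polynomial.C h).natDegree ≤ K + 1 := by
        refine (Polynomial.natDegree_add_le _ _).trans (max_le a2 ?_)
        rw [Polynomial.natDegree_C]; exact Nat.zero_le _
      exact (Polynomial.natDegree_sub_le _ _).trans (max_le
        (deg_comp g _ (cv2_deg a1 a3) hg) (deg_comp g _ (cv2_deg a1 a2) hg))
    have hPe : ∀ s, P.eval s = eval (pt s ((U 0).eval s + h)) g - eval (pt s ((U 0).eval s)) g := by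
      intro s
      rw [hP, Polynomial.eval_sub, ev_cv2, ev_cv2, Polynomial.eval_X, Polynomial.eval_add,
        Polynomial.eval_C]
    have h1 := gp_lagr hN0 P hPd S hcard hSN (m := 2 * ((D + 1) * (ε * (2 * A) ^ D *
      (R / ρ) ^ D))) (by
        intro a ha
        rw [hPe]
        have b1 := key a ha h hh
        have b2 := key a ha 0 (by rw [abs_zero]; exact hR0.le)
        rw [add_zero] at b2
        have e : eval (pt (gp N a) ((U 0).eval (gp N a) + h)) g -
          eval (pt (gp N a) ((U 0).eval (gp N a))) g =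
          (eval (pt (gp N a) ((U 0).eval (gp N a) + h)) g - f (gp N a)) -
          (eval (pt (gp N a) ((U 0).eval (gp N a))) g - f (gp N a)) := by ring
        rw [e]
        refine (abs_sub _ _).trans ?_
        linarith) τ hτ
    rw [hPe] at h1
    refine h1.trans (le_of_eq ?_)
    rw [hC₁]
    ring
  intro τ h hτ hh
  have hq0 : 0 ≤ ε * (R / ρ) ^ D := by positivity
  refine ⟨(fin1 τ h hτ hh).trans ?_, ?_⟩
  · have : C₁ * ε * (R / ρ) ^ D ≤ (C₁ * C₂ + C₁ + 1) * (ε * (R / ρ) ^ D) := by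
      have h3 : 0 ≤ C₁ * C₂ * (ε * (R / ρ) ^ D) := by positivity
      nlinarith
    linarith
  · obtain ⟨P, hP⟩ : ∃ P : Polynomial ℝ, P = aeval (cv2 (Polynomial.C τ) (Polynomial.C
      ((U 0).eval τ) + Polynomial.C R * Polynomial.X)) g - Polynomial.C (eval
      (pt τ ((U 0).eval τ)) g) := ⟨_, rfl⟩
    have hPd : P.natDegree ≤ D := by
      rw [hP]
      refine (Polynomial.natDegree_sub_le _ _).trans (max_le ?_ ?_)
      · refine (deg_comp g _ (cv2_deg (E := 1) ?_ ?_) hg).trans ?_
        · rw [Polynomial.natDegree_C]; exact Nat.zero_le _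
        · refine (Polynomial.natDegree_add_le _ _).trans (max_le ?_ ?_)
          · rw [Polynomial.natDegree_C]; exact Nat.zero_le _
          · exact (Polynomial.natDegree_C_mul_le _ _).trans Polynomial.natDegree_X_le
        · omega
      · rw [Polynomial.natDegree_C]; exact Nat.zero_le _
    have hPe : ∀ s, P.eval s = eval (pt τ ((U 0).eval τ + R * s)) g -
        eval (pt τ ((U 0).eval τ)) g := by
      intro s
      rw [hP, Polynomial.eval_sub, ev_cv2, Polynomial.eval_C, Polynomial.eval_C,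
        Polynomial.eval_add, Polynomial.eval_C, Polynomial.eval_mul, Polynomial.eval_C,
        Polynomial.eval_X]
    have h1 := HM P (-1) 2 (C₁ * ε * (R / ρ) ^ D) hPd (by norm_num) (by
      intro s hs
      rw [hPe]
      refine fin1 τ (R * s) hτ ?_
      rw [abs_mul, abs_of_pos hR0]
      have h2 : |s| ≤ 1 := abs_le.2 ⟨hs.1, by linarith [hs.2]⟩
      exact mul_le_of_le_one_right hR0.le h2) (h / R) (by
      have h2 : |h / R| ≤ 1 := by
        rw [abs_div, abs_of_pos hR0, div_le_one hR0]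
        exact hh
      exact ⟨(abs_le.1 h2).1, by linarith [(abs_le.1 h2).2]⟩)
    have h3 : (Polynomial.derivative P).eval (h / R) = R * eval (pt τ ((U 0).eval τ + h))
        (pderiv 1 g) := by
      rw [hP, Polynomial.derivative_sub, Polynomial.derivative_C, sub_zero, der_cv2]
      congr 3
      field_simp
    rw [h3, abs_mul, abs_of_pos hR0] at h1
    rw [le_div_iff₀ hR0, mul_comm]
    refine h1.trans ?_
    have h4 : C₂ * (C₁ * ε * (R / ρ) ^ D) / 2 = C₁ * C₂ * (ε * (R / ρ) ^ D) / 2 := by ring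
    rw [h4]
    have h5 : 0 ≤ C₁ * C₂ * (ε * (R / ρ) ^ D) := by positivity
    have h6 : 0 ≤ C₁ * (ε * (R / ρ) ^ D) := by positivity
    have h7 : (C₁ * C₂ + C₁ + 1) * ε * (R / ρ) ^ D = C₁ * C₂ * (ε * (R / ρ) ^ D) +
      C₁ * (ε * (R / ρ) ^ D) + ε * (R / ρ) ^ D := by ring
    rw [h7]
    linarith

end Pool.FLN13
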