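import Pool.Agent.H63.LBW.Rem
import Pool.Agent.H40.BFL.MKO

/-!
# A function of two variables which is known along many curves

`grid_bad`: a polynomial is small at few points of the grid. `flat_cur`: a polynomial `g (τ, u)`
which takes on `D + 1` separated curves values which depend only on `τ` does not depend on `u` near
the curves.
-/

set_option autoImplicit false

namespace Pool.FLN13

open Finset

theorem deg_comp {σ : Type} (Q : MvPolynomial σ ℝ) (g : σ → Polynomial ℝ) {K D : ℕ}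
    (hg : ∀ i, (g i).natDegree ≤ K) (h : Q.totalDegree ≤ D) :
    (MvPolynomial.aeval g Q).natDegree ≤ D * K := by
  rw [MvPolynomial.aeval_def, MvPolynomial.eval₂_eq]
  refine Polynomial.natDegree_sum_le_of_forall_le _ _ fun α hα => ?_
  refine (Polynomial.natDegree_mul_le).trans ?_
  have h1 : (algebraMap ℝ (Polynomial ℝ) (MvPolynomial.coeff α Q)).natDegree = 0 :=
    Polynomial.natDegree_C _
  have h2 : (∏ i ∈ α.support, g i ^ α i).natDegree ≤ α.degree * K := by
    refine (Polynomial.natDegree_prod_le _ _).trans ?_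
    rw [Finsupp.degree_apply, Finset.sum_mul]
    refine Finset.sum_le_sum fun i _ => ?_
    exact Polynomial.natDegree_pow_le.trans (Nat.mul_le_mul_left (α i) (hg i))
  rw [h1, zero_add]
  exact h2.trans (Nat.mul_le_mul_right K ((MvPolynomial.le_totalDegree hα).trans h))

theorem ev_comp {σ : Type} (Q : MvPolynomial σ ℝ) (g : σ → Polynomial ℝ) (t : ℝ) :
    (MvPolynomial.aeval g Q).eval t = MvPolynomial.eval (fun i => (g i).eval t) Q := by
  have h := MvPolynomial.map_aeval g (Polynomial.evalRingHom t) Q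
  rw [Polynomial.coe_evalRingHom] at h
  rw [h, MvPolynomial.coe_eval₂Hom, MvPolynomial.eval, MvPolynomial.coe_eval₂Hom]
  congr 1
  ext a
  simp

/-- The points of the grid. -/
noncomputable def gp (N a : ℕ) : ℝ := -1 + 2 * (a / N)

theorem gp_le {N a : ℕ} (hN : 0 < N) (ha : a ≤ N) : |gp N a| ≤ 1 := by
  have hN' : (0 : ℝ) < N := by exact_mod_cast hN
  have ha' : (a : ℝ) ≤ N := by exact_mod_cast ha
  have h1 : (a : ℝ) / N ≤ 1 := (div_le_one hN').2 ha'
  have h2 : (0 : ℝ) ≤ (a : ℝ) / N := by positivity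
  unfold gp
  rw [abs_le]
  constructor <;> linarith

theorem gp_sep {N a b : ℕ} (hN : 0 < N) (h : a ≠ b) : 1 / (N : ℝ) ≤ |gp N a - gp N b| := by
  have hN' : (0 : ℝ) < N := by exact_mod_cast hN
  have h1 : (1 : ℝ) ≤ |(a : ℝ) - b| := by
    have h2 : ((a : ℤ) - b) ≠ 0 := by
      intro h3
      apply h
      omega
    have h4 := Int.one_le_abs h2
    have h5 : ((1 : ℤ) : ℝ) ≤ ((|(a : ℤ) - b| : ℤ) : ℝ) := by exact_mod_cast h4
    push_cast at h5
    exact h5
  have e : gp N a - gp N b = 2 * (((a : ℝ) - b) / N) := by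
    unfold gp
    ring
  rw [e, abs_mul, abs_div, abs_of_pos hN', abs_two, div_le_iff₀ hN']
  have e2 : 2 * (|(a : ℝ) - b| / N) * N = 2 * |(a : ℝ) - b| := by
    field_simp
  rw [e2]
  linarith

/-- Extrapolation from the points of a grid. -/
theorem gp_lagr {D N : ℕ} (hN : 0 < N) (r : Polynomial ℝ) (hr : r.natDegree ≤ D) (S : Finset ℕ)
    (hS : D + 1 ≤ S.card) (hSN : ∀ a ∈ S, a ≤ N) {m : ℝ} (hm : ∀ a ∈ S, |r.eval (gp N a)| ≤ m) :
    ∀ s : ℝ, |s| ≤ 1 → |r.eval s| ≤ (D + 1) * (m * (2 * N) ^ D) := by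
  classical
  intro s hs
  obtain ⟨S', hS', hc⟩ := Finset.exists_subset_card_eq hS
  have hN' : (0 : ℝ) < N := by exact_mod_cast hN
  have hinj : Set.InjOn (gp N) S' := by
    intro a _ b _ hab
    by_contra hne
    have h1 := gp_sep hN hne
    rw [hab, sub_self, abs_zero] at h1
    have : 0 < 1 / (N : ℝ) := by positivity
    linarith
  refine Pool.LBW.lagr r hr (S'.image (gp N)) ?_ hN' (by norm_num) ?_ ?_ ?_
  · rw [Finset.card_image_of_injOn hinj, hc]
  · intro x hx y hy hxy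
    obtain ⟨a, ha, rfl⟩ := Finset.mem_image.1 hx
    obtain ⟨b, hb, rfl⟩ := Finset.mem_image.1 hy
    exact gp_sep hN fun h => hxy (by rw [h])
  · intro y hy
    obtain ⟨b, hb, rfl⟩ := Finset.mem_image.1 hy
    have h1 := gp_le hN (hSN b (hS' hb))
    refine (abs_sub _ _).trans ?_
    linarith
  · intro y hy
    obtain ⟨b, hb, rfl⟩ := Finset.mem_image.1 hy
    exact hm b (hS' hb)

/-- **A polynomial is small at few points of the grid.** -/
theorem grid_bad {K N : ℕ} (hN : 0 < N) (P : Polynomial ℝ) (hP : P.natDegree ≤ K) {ρ : ℝ}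
    (hρ : 0 < ρ) (h : ∃ τ, |τ| ≤ 1 ∧ ρ ≤ |P.eval τ|) (S : Finset ℕ) (hSN : ∀ a ∈ S, a ≤ N)
    (hS : ∀ a ∈ S, |P.eval (gp N a)| ≤ ρ / (2 * ((K + 1) * (2 * N) ^ K))) : S.card ≤ K := by
  by_contra hcon
  push Not at hcon
  obtain ⟨τ, h1, h2⟩ := h
  have hN' : (0 : ℝ) < N := by exact_mod_cast hN
  have h3 := gp_lagr hN P hP S hcon hSN hS τ h1
  have h4 : ((K : ℝ) + 1) * (ρ / (2 * ((K + 1) * (2 * N) ^ K)) * (2 * N) ^ K) = ρ / 2 := by
    have : (0 : ℝ) < (2 * (N : ℝ)) ^ K := by positivity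
    field_simp
  rw [h4] at h3
  linarith

end Pool.FLN13
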