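import Pool.Agent.H13.FLN.Cur
import Pool.Agent.H13.FLN.Cnt
import Pool.Agent.H19.FLT.Alg

/-!
# A label which is known along alive curves does not depend on the last coordinate

`flat_near`: let the value of `g_z (τ, u)` along the curve `u = U (τ)` of a sample be few bits given
the context `z`, as a function of `τ`. If the curve is alive given `z` on all large events, then
`g_z` does not depend on `u` near the curve, at all times, for most samples.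
-/

set_option autoImplicit false

namespace Pool.FLN13

open Finset Real MvPolynomial
open Pool.Agent.H49.Ent Pool.Agent.H32.Dense Pool.STK
open Pool.BFL (Pb)
open Pool.MIC (isLaw_ev ev_pos CH_ev_le)

/-- The code of the curve. -/
noncomputable def wc {Ω : Type} (K m : ℕ) (r : ℝ) (U : Ω → Polynomial ℝ) (ω : Ω) :
    Fin (K + 1) → ℤ := fun j => ⌊(U ω).coeff j * 2 ^ m / r⌋

/-- Equal codes of a level. -/
theorem cd_eq {a b : ℝ} {m k : ℕ} {r : ℝ} (hr : 0 < r)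
    (h : (⌊a * 2 ^ m / r⌋ : ℤ) / 2 ^ k = ⌊b * 2 ^ m / r⌋ / 2 ^ k) :
    |a - b| ≤ r * 2 ^ k / 2 ^ m := by
  obtain ⟨x, hx⟩ : ∃ x : ℝ, x = a * 2 ^ m / r := ⟨_, rfl⟩
  obtain ⟨y, hy⟩ : ∃ y : ℝ, y = b * 2 ^ m / r := ⟨_, rfl⟩
  rw [← hx, ← hy] at h
  have hk : (0 : ℤ) < 2 ^ k := by positivity
  have a1 := Int.emod_add_mul_ediv ⌊x⌋ (2 ^ k)
  have a2 := Int.emod_add_mul_ediv ⌊y⌋ (2 ^ k)
  have b1 := Int.emod_nonneg ⌊x⌋ hk.ne'
  have b2 := Int.emod_nonneg ⌊y⌋ hk.ne'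
  have c1 := Int.emod_lt_of_pos ⌊x⌋ hk
  have c2 := Int.emod_lt_of_pos ⌊y⌋ hk
  rw [h] at a1
  have d1 : |⌊x⌋ - ⌊y⌋| ≤ 2 ^ k - 1 := by
    rw [abs_le]
    constructor <;> linarith
  have d2 : |((⌊x⌋ : ℤ) : ℝ) - ⌊y⌋| ≤ 2 ^ k - 1 := by exact_mod_cast d1
  have e1 := Int.floor_le x
  have e2 := Int.lt_floor_add_one x
  have e3 := Int.floor_le y
  have e4 := Int.lt_floor_add_one y
  have d3 := abs_le.1 d2
  have h1 : |x - y| ≤ 2 ^ k := by
    rw [abs_le]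
    constructor <;> linarith
  have h2 : a - b = (x - y) * r / 2 ^ m := by
    rw [hx, hy]
    field_simp
  have hm : (0 : ℝ) < 2 ^ m := by positivity
  rw [h2, abs_div, abs_mul, abs_of_pos hr, abs_of_pos hm]
  refine div_le_div_of_nonneg_right ?_ hm.le
  rw [mul_comm]
  exact mul_le_mul_of_nonneg_left h1 hr.le

/-- Distant codes of a level. -/
theorem cd_far {a b : ℝ} {m k : ℕ} {r : ℝ} (hr : 0 < r)
    (h : 2 ≤ |(⌊a * 2 ^ m / r⌋ : ℤ) / 2 ^ k - ⌊b * 2 ^ m / r⌋ / 2 ^ k|) :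
    r * 2 ^ k / 2 ^ m ≤ |a - b| := by
  obtain ⟨x, hx⟩ : ∃ x : ℝ, x = a * 2 ^ m / r := ⟨_, rfl⟩
  obtain ⟨y, hy⟩ : ∃ y : ℝ, y = b * 2 ^ m / r := ⟨_, rfl⟩
  rw [← hx, ← hy] at h
  have hk : (0 : ℤ) < 2 ^ k := by positivity
  have a1 := Int.emod_add_mul_ediv ⌊x⌋ (2 ^ k)
  have a2 := Int.emod_add_mul_ediv ⌊y⌋ (2 ^ k)
  have b1 := Int.emod_nonneg ⌊x⌋ hk.ne'
  have b2 := Int.emod_nonneg ⌊y⌋ hk.ne'
  have c1 := Int.emod_lt_of_pos ⌊x⌋ hk
  have c2 := Int.emod_lt_of_pos ⌊y⌋ hk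
  have e1 := Int.floor_le x
  have e2 := Int.lt_floor_add_one x
  have e3 := Int.floor_le y
  have e4 := Int.lt_floor_add_one y
  have d1 : (2 : ℤ) ^ k + 1 ≤ |⌊x⌋ - ⌊y⌋| := by
    rcases le_abs.1 h with h1 | h1
    · have h2 : 2 ^ k * 2 ≤ 2 ^ k * (⌊x⌋ / 2 ^ k - ⌊y⌋ / 2 ^ k) :=
        mul_le_mul_of_nonneg_left h1 hk.le
      rw [mul_sub] at h2
      exact le_abs.2 (Or.inl (by linarith))
    · have h2 : 2 ^ k * 2 ≤ 2 ^ k * (-(⌊x⌋ / 2 ^ k - ⌊y⌋ / 2 ^ k)) :=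
        mul_le_mul_of_nonneg_left h1 hk.le
      rw [mul_neg, mul_sub] at h2
      exact le_abs.2 (Or.inr (by linarith))
  have d2 : (2 : ℝ) ^ k + 1 ≤ |((⌊x⌋ : ℤ) : ℝ) - ⌊y⌋| := by exact_mod_cast d1
  have h1 : (2 : ℝ) ^ k ≤ |x - y| := by
    rcases le_abs.1 d2 with h1 | h1
    · exact le_abs.2 (Or.inl (by linarith))
    · exact le_abs.2 (Or.inr (by linarith))
  have h2 : a - b = (x - y) * r / 2 ^ m := by
    rw [hx, hy]
    field_simp
  have hm : (0 : ℝ) < 2 ^ m := by positivity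
  rw [h2, abs_div, abs_mul, abs_of_pos hr, abs_of_pos hm]
  refine div_le_div_of_nonneg_right ?_ hm.le
  rw [mul_comm]
  exact mul_le_mul_of_nonneg_right h1 hr.le

/-- The values of a polynomial with small coefficients. -/
theorem ev_small {K : ℕ} (P : Polynomial ℝ) (hP : P.natDegree ≤ K) {d : ℝ}
    (h : ∀ j : Fin (K + 1), |P.coeff j| ≤ d) {τ : ℝ} (hτ : |τ| ≤ 1) :
    |P.eval τ| ≤ (K + 1) * d := by
  rw [Polynomial.eval_eq_sum_range' (n := K + 1) (by omega)]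
  refine (Finset.abs_sum_le_sum_abs _ _).trans ?_
  have h1 : ∀ j ∈ range (K + 1), |P.coeff j * τ ^ j| ≤ d := by
    intro j hj
    rw [abs_mul, abs_pow]
    have h2 := h ⟨j, mem_range.1 hj⟩
    have h3 : |τ| ^ j ≤ 1 := pow_le_one₀ (abs_nonneg _) hτ
    have h4 : 0 ≤ |P.coeff j| := abs_nonneg _
    calc |P.coeff j| * |τ| ^ j ≤ |P.coeff j| * 1 := mul_le_mul_of_nonneg_left h3 h4
      _ ≤ d := by rw [mul_one]; exact h2
  refine (Finset.sum_le_sum h1).trans (le_of_eq ?_)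
  rw [Finset.sum_const, card_range, nsmul_eq_mul]
  push_cast
  ring

/-- A polynomial with a large coefficient is large somewhere. -/
theorem ev_large (K : ℕ) : ∃ C : ℝ, 1 ≤ C ∧ ∀ (P : Polynomial ℝ) (d : ℝ) (j : ℕ), 0 < d →
    P.natDegree ≤ K → d ≤ |P.coeff j| → ∃ τ : ℝ, |τ| ≤ 1 ∧ d / C ≤ |P.eval τ| := by
  obtain ⟨A, hA⟩ : ∃ A : ℝ, A = ((K : ℝ) + 1) * (2 ^ K / (1 / ((K + 1 : ℕ) : ℝ)) ^ K) := ⟨_, rfl⟩
  have hA0 : 0 ≤ A := by rw [hA]; positivity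
  refine ⟨2 * A + 1, by linarith, fun P d j hd hP hj => ?_⟩
  by_contra hcon
  push Not at hcon
  have hK : 0 < K + 1 := Nat.succ_pos K
  have h1 := Pool.FLT.lag_coeff (D := K) (fun i : Fin (K + 1) => gp (K + 1) i)
    (s := 1 / ((K + 1 : ℕ) : ℝ)) (ε := d / (2 * A + 1)) (by positivity)
    (fun i => gp_le hK (by omega)) (fun i l h => gp_sep hK fun h' => h (Fin.ext h')) P hP
    (fun i => (hcon _ (gp_le hK (by omega))).le) j
  rw [← hA] at h1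
  have h2 : A * (d / (2 * A + 1)) < d := by
    rw [mul_div_assoc', div_lt_iff₀ (by linarith)]
    nlinarith
  linarith

/-- **A label which is known along alive curves.** -/
theorem flat_near (D K : ℕ) : ∃ C : ℝ, 1 ≤ C ∧ ∀ {Ω Z 𝒞 : Type} [Fintype Ω] {p : Ω → ℝ},
    IsLaw p → ∀ (z : Ω → Z) (fc : Ω → 𝒞) (g : Z → MvPolynomial (Fin 2) ℝ)
    (f : Z → 𝒞 → ℝ → ℝ) (U : Ω → Polynomial ℝ) (n β B₀ : ℕ) {r ε c e L : ℝ}, 0 < r → 0 ≤ ε →
    0 < c → (∀ v, (g v).totalDegree ≤ D) → (∀ ω, (U ω).natDegree ≤ K) →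
    (∀ ω, 0 < p ω → ∀ j : Fin (K + 1), |(U ω).coeff j| ≤ B₀ * r) →
    (∀ ω, 0 < p ω → ∀ τ : ℝ, |τ| ≤ 1 →
      |eval (pt τ ((U ω).eval τ)) (g (z ω)) - f (z ω) (fc ω) τ| ≤ ε) →
    CH p fc z ≤ e →
    (∀ R : Ω → Prop, c ≤ Pb p R → L ≤ CH (cond p R True) (wc K (n * β) r U) z) →
    (K + 1) * Real.log (2 * B₀ + 1) + n * Real.log (D * 3 ^ (K + 1) + 1) + e / c < L →
    Pb p (fun ω => ¬ ∀ τ h : ℝ, |τ| ≤ 1 → |h| ≤ r / 2 ^ (n * β) →
      |eval (pt τ ((U ω).eval τ + h)) (g (z ω)) - eval (pt τ ((U ω).eval τ)) (g (z ω))| ≤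
        C * ε * (2 ^ β) ^ D ∧
      |eval (pt τ ((U ω).eval τ + h)) (pderiv 1 (g (z ω)))| ≤
        C * ε * (2 ^ β) ^ D * 2 ^ (n * β) / r) < c := by
  classical
  obtain ⟨C₁, hC₁, H₁⟩ := flat_cur D K
  obtain ⟨C₂, hC₂, H₂⟩ := ev_large K
  refine ⟨C₁ * ((K + 1) * C₂) ^ D, ?_, ?_⟩
  · have h1 : (1 : ℝ) ≤ (K + 1) * C₂ := by
      have : (0 : ℝ) ≤ K := Nat.cast_nonneg K
      nlinarith
    exact one_le_mul_of_one_le_of_one_le hC₁ (one_le_pow₀ h1)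
  intro Ω Z 𝒞 _ p hp z fc g f U n β B₀ r ε c e L hr hε hc hg hU hB hrel hfew hal hL
  have h0 := hp.nonneg
  obtain ⟨N₀, hN₀⟩ : ∃ N₀ : ℕ, N₀ = D * 3 ^ (K + 1) + 1 := ⟨_, rfl⟩
  obtain ⟨W, hW⟩ : ∃ W : Ω → Fin (K + 1) → ℤ, W = wc K (n * β) r U := ⟨_, rfl⟩
  obtain ⟨Y, hY⟩ : ∃ Y : Ω → 𝒞 × Z, Y = fun ω => (fc ω, z ω) := ⟨_, rfl⟩
  have hbad := lev_bad hp W Y n β N₀ B₀ (c := c) (L := L - e / c) hc (fun ω hω j => by
      rw [hW]
      show |⌊(U ω).coeff j * 2 ^ (n * β) / r⌋ / 2 ^ ((n - 0) * β)| ≤ (B₀ : ℤ)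
      rw [Nat.sub_zero]
      have h1 := abs_le.1 (hB ω hω j)
      have hm : (0 : ℝ) < 2 ^ (n * β) := by positivity
      have hz : (0 : ℤ) < 2 ^ (n * β) := by positivity
      have h2 : (U ω).coeff j * 2 ^ (n * β) / r ≤ B₀ * 2 ^ (n * β) := by
        rw [div_le_iff₀ hr]
        have := mul_le_mul_of_nonneg_right h1.2 hm.le
        linarith
      have h3 : -(B₀ * 2 ^ (n * β) : ℝ) ≤ (U ω).coeff j * 2 ^ (n * β) / r := by
        rw [le_div_iff₀ hr]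
        have := mul_le_mul_of_nonneg_right h1.1 hm.le
        linarith
      have h4 : -((B₀ : ℤ) * 2 ^ (n * β)) ≤ ⌊(U ω).coeff j * 2 ^ (n * β) / r⌋ := by
        rw [Int.le_floor]
        push_cast
        exact h3
      have h5 : ⌊(U ω).coeff j * 2 ^ (n * β) / r⌋ ≤ (B₀ : ℤ) * 2 ^ (n * β) := by
        have := Int.floor_le ((U ω).coeff j * 2 ^ (n * β) / r)
        have h6 : ((⌊(U ω).coeff j * 2 ^ (n * β) / r⌋ : ℤ) : ℝ) ≤
          (((B₀ : ℤ) * 2 ^ (n * β) : ℤ) : ℝ) := by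
          push_cast
          linarith
        exact_mod_cast h6
      rw [abs_le]
      constructor
      · rw [Int.le_ediv_iff_mul_le hz]
        linarith
      · refine Int.ediv_le_of_le_mul hz ?_
        exact h5) (fun R hR => by
      have hRp : 0 < Pb p R := lt_of_lt_of_le hc hR
      have hq := isLaw_ev hp R hRp
      have a1 := hal R hR
      rw [← hW] at a1
      have a2 := CH_le_add hq.nonneg W fc z
      have a3 : CH (cond p R True) fc z ≤ e / c := by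
        have b2 := CH_ev_le h0 fc z R
        have b4 := CH_nonneg hq.nonneg fc z
        rw [le_div_iff₀ hc]
        have b5 := mul_le_mul_of_nonneg_right hR b4
        linarith
      rw [hY]
      linarith) (by
      rw [hN₀]
      push_cast
      linarith)
  refine lt_of_le_of_lt ?_ hbad
  unfold Pb
  refine Finset.sum_le_sum fun ω _ => ?_
  by_cases hpos : 0 < p ω
  swap
  · have : p ω = 0 := le_antisymm (not_lt.1 hpos) (h0 ω)
    rw [this]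
    split_ifs <;> exact le_rfl
  by_cases hE : ∀ i < n, (nx p W Y n β i (cd W n β i ω, Y ω)).card ≤ N₀
  · rw [if_pos hE]
    split_ifs
    · exact le_rfl
    · exact h0 ω
  rw [if_neg hE, if_neg]
  rw [not_not]
  push Not at hE
  obtain ⟨i, hi, hcard⟩ := hE
  -- the separated curves
  have hx₀ : cd W n β (i + 1) ω ∈ nx p W Y n β i (cd W n β i ω, Y ω) := by
    exact mem_nx.2 ⟨ω, ⟨hpos, rfl, rfl⟩, rfl⟩
  obtain ⟨w, w0, w1, w2⟩ := sel D _ _ hx₀ (by omega)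
  have hch : ∀ l : Fin (D + 1), ∃ ω', 0 < p ω' ∧ cd W n β i ω' = cd W n β i ω ∧ Y ω' = Y ω ∧
      cd W n β (i + 1) ω' = w l ∧ (l = 0 → ω' = ω) := by
    intro l
    by_cases hl : l = 0
    · exact ⟨ω, hpos, rfl, rfl, by rw [hl, w0], fun _ => rfl⟩
    · obtain ⟨ω', ⟨h4, h5, h6⟩, h3⟩ := mem_nx.1 (w1 l)
      exact ⟨ω', h4, h5, h6, h3, fun h => absurd h hl⟩
  choose v v1 v2 v3 v4 v5 using hch
  have hv0 : v 0 = ω := v5 0 rfl
  have hz : ∀ l, z (v l) = z ω := by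
    intro l
    have := v3 l
    rw [hY] at this
    exact (Prod.ext_iff.1 this).2
  have hfc : ∀ l, fc (v l) = fc ω := by
    intro l
    have := v3 l
    rw [hY] at this
    exact (Prod.ext_iff.1 this).1
  obtain ⟨ri, hri⟩ : ∃ ri : ℝ, ri = r * 2 ^ ((n - i) * β) / 2 ^ (n * β) := ⟨_, rfl⟩
  obtain ⟨rj, hrj⟩ : ∃ rj : ℝ, rj = r * 2 ^ ((n - (i + 1)) * β) / 2 ^ (n * β) := ⟨_, rfl⟩
  have hri0 : 0 < ri := by rw [hri]; positivity
  have hrj0 : 0 < rj := by rw [hrj]; positivity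
  have hrr : ri = 2 ^ β * rj := by
    rw [hri, hrj]
    have : (n - i) * β = β + (n - (i + 1)) * β := by
      obtain ⟨m, rfl⟩ : ∃ m, n = i + 1 + m := ⟨n - (i + 1), by omega⟩
      have e1 : i + 1 + m - i = m + 1 := by omega
      have e2 : i + 1 + m - (i + 1) = m := by omega
      rw [e1, e2]
      ring
    rw [this, pow_add]
    ring
  have hrn : r / 2 ^ (n * β) ≤ ri := by
    rw [hri]
    refine div_le_div_of_nonneg_right ?_ (by positivity)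
    have : (1 : ℝ) ≤ 2 ^ ((n - i) * β) := one_le_pow₀ (by norm_num)
    nlinarith
  have hK0 : (0 : ℝ) ≤ K := Nat.cast_nonneg K
  have hC₂0 : 0 < C₂ := by linarith
  have hb1 : (1 : ℝ) ≤ 2 ^ β := one_le_pow₀ (by norm_num)
  have hmain := H₁ (g (z ω)) (hg _) (f (z ω) (fc ω)) (fun l => U (v l)) ((K + 1) * ri) (rj / C₂) ε
    (by positivity) (by
      rw [div_le_iff₀ hC₂0, hrr]
      have h1 : rj ≤ 2 ^ β * rj := le_mul_of_one_le_left hrj0.le hb1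
      have h2 : 2 ^ β * rj ≤ (K + 1) * (2 ^ β * rj) :=
        le_mul_of_one_le_left (by positivity) (by linarith)
      have h3 : (K + 1) * (2 ^ β * rj) ≤ (K + 1) * (2 ^ β * rj) * C₂ :=
        le_mul_of_one_le_right (by positivity) hC₂
      linarith) hε (fun l => hU _) (fun l l' τ hτ => by
      rw [← Polynomial.eval_sub]
      refine ev_small _ ((Polynomial.natDegree_sub_le _ _).trans (max_le (hU _) (hU _)))
        (fun j => ?_) hτ
      rw [Polynomial.coeff_sub, hri]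
      refine cd_eq hr ?_
      have h1 := congrFun ((v2 l).trans (v2 l').symm) j
      rw [hW] at h1
      exact h1) (fun l l' hll => by
      obtain ⟨j, hj⟩ := w2 l l' hll
      have h1 : rj ≤ |(U (v l) - U (v l')).coeff j| := by
        rw [Polynomial.coeff_sub, hrj]
        refine cd_far hr ?_
        rw [← v4 l, ← v4 l', hW] at hj
        exact hj
      obtain ⟨τ, h2, h3⟩ := H₂ (U (v l) - U (v l')) rj j hrj0
        ((Polynomial.natDegree_sub_le _ _).trans (max_le (hU _) (hU _))) h1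
      exact ⟨τ, h2, by rw [← Polynomial.eval_sub]; exact h3⟩) (fun l τ hτ => by
      have h1 := hrel (v l) (v1 l) τ hτ
      rw [hz l, hfc l] at h1
      exact h1)
  intro τ h hτ hh
  have hR : r / 2 ^ (n * β) ≤ (K + 1) * ri := by
    have : ri ≤ (K + 1) * ri := le_mul_of_one_le_left hri0.le (by linarith)
    linarith
  obtain ⟨m1, m2⟩ := hmain τ h hτ (hh.trans hR)
  simp only [hv0] at m1 m2
  have e1 : (K + 1) * ri / (rj / C₂) = (K + 1) * C₂ * 2 ^ β := by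
    rw [hrr]
    field_simp
  rw [e1, mul_pow] at m1 m2
  have e2 : C₁ * ε * (((K + 1) * C₂) ^ D * (2 ^ β) ^ D) =
      C₁ * ((K + 1) * C₂) ^ D * ε * (2 ^ β) ^ D := by ring
  rw [e2] at m1 m2
  refine ⟨m1, m2.trans ?_⟩
  have hX : 0 ≤ C₁ * ((K + 1) * C₂) ^ D * ε * (2 ^ β) ^ D := by positivity
  have e3 : C₁ * ((K + 1) * C₂) ^ D * ε * (2 ^ β) ^ D * 2 ^ (n * β) / r =
      C₁ * ((K + 1) * C₂) ^ D * ε * (2 ^ β) ^ D / (r / 2 ^ (n * β)) := by
    field_simp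
  rw [e3]
  exact div_le_div_of_nonneg_left hX (by positivity) hR

end Pool.FLN13
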